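import Pool.Agent.Helper42.QC.All

namespace Pool.Agent.Results.MP_75837a_al.EvenDegree

open Pool.Agent.Helper42.QD Pool.Agent.Helper42.QC

/-- Let `F` be a non-archimedean local field and `D` a central division algebra over `F` of even degree
`d` (for instance the quaternion division algebra), given as `D = K + K T + ... + K T ^ (d - 1)` with
`K` the unramified extension of `F` of degree `d`, `T ^ d = pi`, `T a = sig a T`, `sig` a generator of
the Galois group of `K` over `F`. Let `φ` be a non-trivial smooth additive character of `F` and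
`ψ (1 x; 0 1) = φ (Trd x)`. Then `GL_2(D)` has no smooth cuspidal representation `ρ` with
`dim ρ_{N, ψ} = 1`. -/
theorem result : ∀ (K D : Type) [Field K] [DivisionRing D] (c : CD K D) (φ : AddChar c.F ℂ),
    φ ≠ 1 → (∃ n : ℕ, ∀ x : c.F, (x : K) / c.pi ^ n ∈ c.A → φ x = 1) → Even c.d →
    ∀ (V : Type) [AddCommGroup V] [Module ℂ V] (ρ : Representation ℂ (G2 D) V), Smooth c ρ →
      -- cuspidal
      tsp ρ (fun _ => 1) = ⊤ →
      -- no unique degenerate Whittaker model
      Module.finrank ℂ (V ⧸ tsp ρ (fun x => φ (c.trd x))) ≠ 1 :=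
  main_all

end Pool.Agent.Results.MP_75837a_al.EvenDegree
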