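import Pool.Agent.Helper42.WD.Dz

namespace Pool.Agent.Results.MP_75837a_al.PositiveDepth

open Pool.Agent.Helper42.WD

/-- Let `F` be (for instance) a non-archimedean local field, `K` its unramified cubic extension, `sig`
a generator of the Galois group, `pi` a uniformizer of `F` and `D = K + K T + K T ^ 2`,
`T ^ 3 = pi`, `T a = sig a T`. Then `D` is a division ring with centre `F`, and for every non-trivial
additive character `φ` of `F` the group `GL_2(D)` has a smooth irreducible cuspidal representation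
`ρ` with `dim ρ_{N, ψ} = 1`, `ψ (1 x; 0 1) = φ (Trd x)`, no twist of which has non-zero vectors fixed
by the first congruence subgroup of `GL_2(O_D)`; so it is not a twist of a representation of depth
zero. -/
theorem result : ∀ (K : Type) [Field K] (c : Dat K) (φ : AddChar c.F ℂ), φ ≠ 1 →
    (∃ n : ℕ, ∀ x : c.F, (x : K) / c.pi ^ n ∈ c.A → φ x = 1) →
    (∀ x : Cyc c, x ≠ 0 → ∃ y, x * y = 1 ∧ y * x = 1) ∧
    (∀ x : Cyc c, (∀ y, x * y = y * x) ↔ (x.x0 ∈ c.F ∧ x.x1 = 0 ∧ x.x2 = 0)) ∧
    ∃ (V : Type) (_ : AddCommGroup V) (_ : Module ℂ V) (ρ : Representation ℂ (G c) V),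
      Smooth ρ ∧ Irred ρ ∧
      -- cuspidal
      tspan ρ (fun _ => 1) = ⊤ ∧
      -- unique degenerate Whittaker model
      Module.finrank ℂ (V ⧸ tspan ρ (fun x => φ (trd c x))) = 1 ∧
      -- no twist has depth zero
      ∀ (θ : G c →* ℂˣ) (v : V),
        (∀ g : G c, (∀ i j, InP c ((g.val - 1) i j)) → (θ g : ℂ) • ρ g v = v) → v = 0 :=
  main

end Pool.Agent.Results.MP_75837a_al.PositiveDepth
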